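import Pool.Agent.MP_181f73_al.H22.Approx

set_option autoImplicit false

namespace Pool.Agent.Results.MP_181f73_al.Reduced

open Pool.Agent.MP_181f73_al Pool.Agent.MP_181f73_al.H78

/-- the free group on two generators -/
abbrev F2 : Type := FreeGroup (Fin 2)

/-- square summable real functions on the free group -/
abbrev L2 : Type := lp (fun _ : F2 => ℝ) 2

/-- bounded equivariant homogeneous cochains of degree `n` -/
def IsCochain (n : ℕ) (c : (Fin (n + 1) → F2) → L2) : Prop :=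
  (∃ B : ℝ, ∀ x, ‖c x‖ ≤ B) ∧ ∀ (g : F2) (x : Fin (n + 1) → F2) (y : F2),
    c (fun i => g * x i) y = c x (g⁻¹ * y)

/-- the homogeneous coboundary -/
noncomputable def cob (n : ℕ) (c : (Fin (n + 1) → F2) → L2) (x : Fin (n + 2) → F2) : L2 :=
  ∑ i : Fin (n + 2), (-1 : ℝ) ^ (i : ℕ) • c fun j => x (i.succAbove j)

lemma fin_bd (x : Fin 4 → F2) (T : Finset F2) :
    ∑ y ∈ T, ‖phi (y⁻¹ * x 0) (y⁻¹ * x 1) (y⁻¹ * x 2) (y⁻¹ * x 3)‖ ^ (2 : ENNReal).toReal ≤
      (222 : ℝ) ^ (2 : ENNReal).toReal := by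
  classical
  have := phi_sum (x 0) (x 1) (x 2) (x 3) (T.image fun y => y⁻¹)
  rw [Finset.sum_image fun x _ y _ h => inv_injective h] at this
  simp only [ENNReal.toReal_ofNat, Real.rpow_ofNat, Real.norm_eq_abs, sq_abs]
  exact this.trans (by norm_num)

/-- the cocycle -/
noncomputable def cc (x : Fin 4 → F2) : L2 :=
  ⟨fun y => phi (y⁻¹ * x 0) (y⁻¹ * x 1) (y⁻¹ * x 2) (y⁻¹ * x 3), memℓp_gen' (fin_bd x)⟩

lemma cc_apply (x : Fin 4 → F2) (y : F2) :
    cc x y = phi (y⁻¹ * x 0) (y⁻¹ * x 1) (y⁻¹ * x 2) (y⁻¹ * x 3) := rfl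

lemma cob_apply (n : ℕ) (c : (Fin (n + 1) → F2) → L2) (x : Fin (n + 2) → F2) (y : F2) :
    cob n c x y = ∑ i : Fin (n + 2), (-1 : ℝ) ^ (i : ℕ) * c (fun j => x (i.succAbove j)) y := by
  rw [cob, lp.coeFn_sum, Finset.sum_apply]
  rfl

lemma sum_le {n : ℕ} {c : (Fin (n + 1) → F2) → L2} {B : ℝ} (hB : ∀ x, ‖c x‖ ≤ B)
    (he : ∀ (g : F2) (x : Fin (n + 1) → F2) (y : F2), c (fun i => g * x i) y = c x (g⁻¹ * y))
    (x : Fin (n + 1) → F2) (T : Finset F2) : ∑ g ∈ T, c (fun i => g * x i) 1 ^ 2 ≤ B ^ 2 := by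
  classical
  have h1 := lp.sum_rpow_le_norm_rpow (p := 2) (by norm_num) (c x) (T.image fun g => g⁻¹)
  rw [Finset.sum_image fun x _ y _ h => inv_injective h] at h1
  simp only [ENNReal.toReal_ofNat, Real.rpow_ofNat, Real.norm_eq_abs, sq_abs] at h1
  simp only [he, mul_one]
  exact h1.trans (pow_le_pow_left₀ (norm_nonneg _) (hB _) 2)

theorem result : ∃ c : (Fin 4 → F2) → L2, IsCochain 3 c ∧ cob 3 c = 0 ∧
    ∃ ε : ℝ, 0 < ε ∧ ∀ b : (Fin 3 → F2) → L2, IsCochain 2 b → ∃ x, ε ≤ ‖c x - cob 2 b x‖ := by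
  classical
  have hc : ∀ (g : F2) (x : Fin 4 → F2) (y : F2), cc (fun i => g * x i) y = cc x (g⁻¹ * y) :=
    fun g x y => by simp [cc_apply, mul_assoc]
  refine ⟨cc, ⟨⟨222, fun x => lp.norm_le_of_forall_sum_le (by norm_num) (by norm_num) (fin_bd x)⟩,
    hc⟩, ?_, 1 / 12, by norm_num, ?_⟩
  · funext x
    ext y
    simp [cob_apply, Fin.sum_univ_succ, cc_apply, phi, Fin.succAbove]
    ring
  · rintro b ⟨⟨B, hB⟩, he⟩
    by_contra hd
    push Not at hd
    refine H22.no_approx (ψ := fun y0 y1 y2 => b ![y0, y1, y2] 1) (B := B ^ 2)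
      (ρ := fun y0 y1 y2 y3 => (cc ![y0, y1, y2, y3] - cob 2 b ![y0, y1, y2, y3]) 1) ?_ ?_ ?_
    · intro x0 x1 x2 T
      have e : ∀ g, ![g * x0, g * x1, g * x2] = fun i => g * ![x0, x1, x2] i := fun g => by
        funext i; fin_cases i <;> rfl
      simp only [e]
      exact sum_le hB he _ T
    · intro x0 x1 x2 x3 T
      have e : ∀ g, ![g * x0, g * x1, g * x2, g * x3] = fun i => g * ![x0, x1, x2, x3] i :=
        fun g => by funext i; fin_cases i <;> rfl
      simp only [e]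
      refine (sum_le (c := fun x => cc x - cob 2 b x) (fun x => (hd x).le) (fun g x y => ?_) _
        T).trans (by norm_num)
      simp only [lp.coeFn_sub, Pi.sub_apply, hc, cob_apply]
      congr 1
      exact Finset.sum_congr rfl fun i _ => by rw [he g fun j => x (i.succAbove j)]
    · intro y0 y1 y2 y3
      simp only [lp.coeFn_sub, Pi.sub_apply, cob_apply, cc_apply, Fin.sum_univ_succ]
      have e0 : (fun j => ![y0, y1, y2, y3] ((0 : Fin 4).succAbove j)) = ![y1, y2, y3] := by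
        funext i; fin_cases i <;> rfl
      have e1 : (fun j => ![y0, y1, y2, y3] ((Fin.succ 0 : Fin 4).succAbove j)) = ![y0, y2, y3] := by
        funext i; fin_cases i <;> rfl
      have e2 : (fun j => ![y0, y1, y2, y3] ((Fin.succ (Fin.succ 0) : Fin 4).succAbove j)) =
          ![y0, y1, y3] := by
        funext i; fin_cases i <;> rfl
      have e3 : (fun j => ![y0, y1, y2, y3]
          ((Fin.succ (Fin.succ (Fin.succ 0)) : Fin 4).succAbove j)) = ![y0, y1, y2] := by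
        funext i; fin_cases i <;> rfl
      rw [e0, e1, e2, e3]
      simp
      ring

end Pool.Agent.Results.MP_181f73_al.Reduced
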